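import Pool.Agent.W715.AnnFin

/-!
# MP_94eb8e_an: a non-periodic invariant measure of a billiard table without cusps for which the
Oseledets integrability condition fails

The definitions used by the statement (`Table`, `State`, `Table.NoCusps`, `Table.Step`, `Table.Dom`,
`Table.Good`, `Table.PeriodicPts`, `Table.HasDeriv`) are in `Pool/Agent/W715/BilDefs.lean`, where it is
also proved that the billiard map and its derivative are well defined (`Table.step_unique`,
`Table.hasDeriv_unique`).
-/

set_option autoImplicit false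

open MeasureTheory

namespace Pool.Agent.Results.MP_94eb8e_an.AnnulusInfinite

open Pool.Agent.W715.Bil

/-- There is a billiard table `T` without corners (in particular without cusps), the annulus
`1 ≤ |z| ≤ 2`, and a probability measure `μ` on its phase space which is invariant under the billiard
map `F`, gives full measure to the states whose entire orbit avoids the singular set and measure zero to
the periodic points, such that the billiard map has a derivative `D x` in the coordinates `(r, φ)` at
almost every state `x` and the integral of `log⁺ ‖D x‖` is infinite. -/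
theorem result : ∃ (n : ℕ) (T : Table n) (μ : Measure (State n)) (F : State n → State n),
    T.Q = {z : ℂ | 1 ≤ ‖z‖ ∧ ‖z‖ ≤ 2} ∧ (∀ i, T.closed i) ∧ T.NoCusps ∧
    IsProbabilityMeasure μ ∧
    (∀ᵐ x ∂μ, x ∈ T.Good) ∧
    (∀ᵐ x ∂μ, F x ∈ T.Dom ∧ T.Step x (F x)) ∧
    MeasurePreserving F μ μ ∧
    μ T.PeriodicPts = 0 ∧
    (∀ᵐ x ∂μ, ∃ A, T.HasDeriv x A) ∧
    ∀ D : State n → ℝ × ℝ →L[ℝ] ℝ × ℝ, (∀ᵐ x ∂μ, T.HasDeriv x (D x)) →
      ∫⁻ x, ENNReal.ofReal (max 0 (Real.log ‖D x‖)) ∂μ = ⊤ := by
  refine ⟨2, Ann.ann, Ann.μ, Ann.F, rfl, fun _ => trivial, fun i _ h => absurd trivial h,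
    inferInstance, ?_, ?_, Ann.F_preserving, Ann.μ_periodic, ?_, Ann.lintegral_top⟩
  · filter_upwards [Ann.μ_E] with x hx
    exact Ann.E_good hx
  · filter_upwards [Ann.μ_E] with x hx
    exact Ann.E_F hx
  · filter_upwards [Ann.μ_E] with x hx
    exact Ann.E_hasDeriv hx

end Pool.Agent.Results.MP_94eb8e_an.AnnulusInfinite
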